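import Mathlib
import Pool.Agent.R39.KTree.Defs
import Pool.Agent.R39.KTree.Build
import Pool.Agent.R39.KTree.Upper

/-! `L(k) = U(k) = k + 1` for every `k ≥ 3`. -/

namespace Pool.Agent.Results.MP_6776bf_co.PageNumbersKTrees

open Function Pool.Agent.R39.KTree

theorem emb_of_local {V : Type} {G : SimpleGraph V} {k m : ℕ} (hm : m ≤ k)
    (h : HasLocalEmbedding G m) : ∃ (pos : V → ℕ) (page : Sym2 V → ℕ), Emb G k pos page := by
  obtain ⟨pos, page, h1, h2, h3⟩ := h
  exact ⟨pos, page, h1, h2, fun v => (h3 v).trans hm⟩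

theorem emb_of_union {V : Type} {G : SimpleGraph V} {k m : ℕ} (hm : m ≤ k)
    (h : HasUnionEmbedding G m) :
    ∃ (pos : V → ℕ) (page : Sym2 V → ℕ × Set V), Emb G k pos page := by
  obtain ⟨pos, page, h1, h2, h3⟩ := h
  -- label an edge by its page and its component
  let page' : Sym2 V → ℕ × Set V := fun e =>
    (page e, {x | ∃ y ∈ e, (pageGraph G page (page e)).Reachable y x})
  have hset : ∀ u v, G.Adj u v →
      {x | ∃ y ∈ s(u, v), (pageGraph G page (page s(u, v))).Reachable y x} =
      {x | (pageGraph G page (page s(u, v))).Reachable u x} := by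
    intro u v huv
    have hr : (pageGraph G page (page s(u, v))).Reachable u v :=
      SimpleGraph.Adj.reachable ⟨huv, rfl⟩
    ext x
    simp only [Set.mem_ofPred_eq, Sym2.mem_iff]
    constructor
    · rintro ⟨y, rfl | rfl, hy⟩
      · exact hy
      · exact hr.trans hy
    · intro hx
      exact ⟨u, Or.inl rfl, hx⟩
  refine ⟨pos, page', h1, ?_, ?_⟩
  · intro u v w x huv hwx he
    obtain ⟨e1, e2⟩ := Prod.mk.inj he
    rw [hset u v huv, hset w x hwx] at e2
    have hw : w ∈ {z | (pageGraph G page (page s(w, x))).Reachable w z} :=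
      SimpleGraph.Reachable.refl _
    rw [← e2] at hw
    exact h3 u v w x huv hwx e1 hw
  · intro v
    have hsub : ((fun u => page' s(v, u)) '' G.neighborSet v) ⊆
        (fun P => (P, {x | (pageGraph G page P).Reachable v x})) '' Set.Iio m := by
      rintro _ ⟨u, hu, rfl⟩
      refine ⟨page s(v, u), h2 v u hu, ?_⟩
      exact Prod.ext rfl (hset v u hu).symm
    have hfin : ((fun P => (P, {x | (pageGraph G page P).Reachable v x})) '' Set.Iio m).Finite :=
      (Set.finite_Iio m).image _
    calc ((fun u => page' s(v, u)) '' G.neighborSet v).ncard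
        ≤ ((fun P => (P, {x | (pageGraph G page P).Reachable v x})) '' Set.Iio m).ncard :=
          Set.ncard_le_ncard hsub hfin
      _ ≤ (Set.Iio m).ncard := Set.ncard_image_le (Set.finite_Iio m)
      _ = m := by simp
      _ ≤ k := hm

/-- For every `k ≥ 3` the maximum local page number and the maximum union page number of
`k`-trees are both equal to `k + 1`. -/
theorem result (k : ℕ) (hk : 3 ≤ k) :
    IsGreatest {m | ∃ n, ∃ G : SimpleGraph (Fin n), IsKTree k G ∧ localPageNumber G = m}
      (k + 1) ∧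
    IsGreatest {m | ∃ n, ∃ G : SimpleGraph (Fin n), IsKTree k G ∧ unionPageNumber G = m}
      (k + 1) := by
  have hL : ∀ n, ∀ G : SimpleGraph (Fin n), IsKTree k G → localPageNumber G ≤ k + 1 :=
    fun n G hG => Nat.sInf_le (local_le (by omega) hG)
  have hU : ∀ n, ∀ G : SimpleGraph (Fin n), IsKTree k G → unionPageNumber G ≤ k + 1 :=
    fun n G hG => Nat.sInf_le (union_le (by omega) hG)
  obtain ⟨n, G, hG, hbad⟩ := exists_bad_ktree hk
  have hL' : k + 1 ≤ localPageNumber G := by
    by_contra hcon
    have hmem : HasLocalEmbedding G (localPageNumber G) :=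
      Nat.sInf_mem (s := {m | HasLocalEmbedding G m}) ⟨k + 1, local_le (by omega) hG⟩
    obtain ⟨pos, page, h⟩ := emb_of_local (k := k) (by omega) hmem
    exact hbad _ pos page h
  have hU' : k + 1 ≤ unionPageNumber G := by
    by_contra hcon
    have hmem : HasUnionEmbedding G (unionPageNumber G) :=
      Nat.sInf_mem (s := {m | HasUnionEmbedding G m}) ⟨k + 1, union_le (by omega) hG⟩
    obtain ⟨pos, page, h⟩ := emb_of_union (k := k) (by omega) hmem
    exact hbad _ pos page h
  refine ⟨⟨⟨n, G, hG, le_antisymm (hL n G hG) hL'⟩, ?_⟩,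
    ⟨⟨n, G, hG, le_antisymm (hU n G hG) hU'⟩, ?_⟩⟩
  · rintro m ⟨n, G, hG, rfl⟩
    exact hL n G hG
  · rintro m ⟨n, G, hG, rfl⟩
    exact hU n G hG

end Pool.Agent.Results.MP_6776bf_co.PageNumbersKTrees
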